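import Mathlib
import Pool.Agent.H761R3.CQ.All

/-!
Finding cliques in the random graph with few adaptive queries: `c* ≤ 3/2`, hence `c* = 3/2` with
the known lower bound.
-/

namespace Pool.Agent.Results.MP_07f5c7_lc.CliqueQueries

open Filter MeasureTheory

/-- No `c > 3/2` is achievable with `n (log n)^O(1)` adaptive queries to the random graph with
edge probability `1/2`, whatever the computing power and the internal randomness; moreover, for
`c > 3/2` the best success probability of such algorithms tends to `0`: for all `C` and `ε > 0`,
if `n` is large then every randomised algorithm (a random choice, with any probability measure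
`μ`, of a deterministic adaptive query algorithm) making at most `C n (log n)^C` queries finds a
clique of size at least `c log n` with probability at most `ε`. -/
theorem result :
    (∀ c : ℝ, H761CQ.Achievable c → c ≤ 3 / 2) ∧
    ∀ c : ℝ, 3 / 2 < c → ∀ (C : ℕ) (ε : ℝ), 0 < ε →
      ∀ᶠ n : ℕ in atTop, ∀ q : ℕ, (q : ℝ) ≤ C * n * (Real.logb 2 n) ^ C →
        ∀ (Ω : Type) [MeasurableSpace Ω] (μ : Measure Ω) [IsProbabilityMeasure μ]
          (A : Ω → H761CQ.Alg n),
          ∫⁻ ω, ENNReal.ofReal (H761CQ.succ (A ω) q (c * Real.logb 2 n)) ∂μ ≤
            ENNReal.ofReal ε :=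
  ⟨H761CQ.achievable_le, fun c hc C ε hε => H761CQ.main c hc C ε hε⟩

end Pool.Agent.Results.MP_07f5c7_lc.CliqueQueries
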